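import Mathlib

set_option autoImplicit false
set_option maxSynthPendingDepth 3

namespace Pool.Agent.Results.MP_44775e_co.Counter
open Finset Pointwise

/-- number of parts, the ceiling of n / k -/
def parts (n k : ℕ) : ℕ := (n + k - 1) / k

/-- the enlarged vertex set: G together with k * ceil(n/k) - n new isolated vertices -/
abbrev Enl (V : Type) [Fintype V] (k : ℕ) : Type :=
  V ⊕ Fin (k * parts (Fintype.card V) k - Fintype.card V)

/-- G plus isolated vertices plus a clique on every class of the partition given by `p` -/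
def cliqueUp {V : Type} [Fintype V] (G : SimpleGraph V) (k : ℕ)
    (p : Enl V k → Fin (parts (Fintype.card V) k)) : SimpleGraph (Enl V k) :=
  G.map Function.Embedding.inl ⊔ SimpleGraph.fromRel (fun x y => p x = p y)

/-- every graph obtained from a partition into classes of size k is k-colourable -/
def StrongColorable {V : Type} [Fintype V] (G : SimpleGraph V) (k : ℕ) : Prop :=
  ∀ p : Enl V k → Fin (parts (Fintype.card V) k),
    (∀ i, Nat.card {x // p x = i} = k) → (cliqueUp G k p).Colorable k

/-- the strong chromatic number -/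
noncomputable def strongChrom {V : Type} [Fintype V] (G : SimpleGraph V) : ℕ :=
  sInf {k | 0 < k ∧ StrongColorable G k}

/-- the biclique number (equal to 1 for an edgeless graph) -/
noncomputable def omegaB {V : Type} [Fintype V] (G : SimpleGraph V) : ℕ :=
  max 1 (sSup {m | ∃ a b : ℕ, 1 ≤ a ∧ 1 ≤ b ∧ a + b = m ∧
    (completeBipartiteGraph (Fin a) (Fin b)).IsContained G})

def J : Fin 3 → Fin 3 → Finset (ZMod 11) :=
  ![![∅, {0, 1, 2, 3}, {7, 8, 9, 10}], ![{0, 8, 9, 10}, ∅, {0, 1, 2, 3}],
    ![{1, 2, 3, 4}, {0, 8, 9, 10}, ∅]]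

def G : SimpleGraph (Fin 3 × ZMod 11) where
  Adj u v := u.1 ≠ v.1 ∧ v.2 - u.2 ∉ J u.1 v.1
  symm := ⟨by decide⟩
  loopless := ⟨fun _ h => h.1 rfl⟩

instance : DecidableRel G.Adj := fun u v =>
  inferInstanceAs (Decidable (u.1 ≠ v.1 ∧ v.2 - u.2 ∉ J u.1 v.1))

lemma no_trans (x y z : ZMod 11) :
    G.Adj (0, x) (1, y) ∨ G.Adj (1, y) (2, z) ∨ G.Adj (0, x) (2, z) := by
  revert x y z
  decide +kernel

lemma J_card (i j : Fin 3) (h : i ≠ j) : (J i j).card = 4 := by
  revert i j
  decide

lemma one_side (A B : Finset (Fin 3 × ZMod 11)) (i : Fin 3) (hA : A.Nonempty) (hB : B.Nonempty)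
    (hi : ∀ a ∈ A, a.1 = i) (hAB : ∀ a ∈ A, ∀ b ∈ B, G.Adj a b) : A.card + B.card ≤ 15 := by
  set A' := A.image Prod.snd with hA'
  have cA : A'.card = A.card := by
    apply card_image_of_injOn
    intro a ha b hb e
    exact Prod.ext ((hi a ha).trans (hi b hb).symm) e
  have hA'n : A'.Nonempty := hA.image _
  have key : ∀ j, (B.filter fun b => b.1 = j).card ≤ if j = i then 0 else 8 - A.card := by
    intro j
    split_ifs with hj
    · obtain ⟨a, ha⟩ := hA
      rw [Nat.le_zero, card_eq_zero, filter_eq_empty_iff]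
      intro b hb e
      exact (hAB a ha b hb).1 ((hi a ha).trans (e.trans hj).symm)
    · have hJ := J_card i j (Ne.symm hj)
      have cd := ZMod.cauchy_davenport (p := 11) (by norm_num) hA'n
        (card_pos.mp (by rw [hJ]; norm_num) : (J i j).Nonempty)
      have c1 : ((B.filter fun b => b.1 = j).image Prod.snd).card =
          (B.filter fun b => b.1 = j).card := by
        apply card_image_of_injOn
        intro a ha b hb e
        exact Prod.ext ((mem_filter.mp ha).2.trans (mem_filter.mp hb).2.symm) e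
      have dj : Disjoint ((B.filter fun b => b.1 = j).image Prod.snd) (A' + J i j) := by
        rw [disjoint_left]
        intro y hy hy'
        obtain ⟨b, hb, rfl⟩ := mem_image.mp hy
        obtain ⟨x, hx, t, ht, e⟩ := mem_add.mp hy'
        obtain ⟨a, ha, rfl⟩ := mem_image.mp hx
        have := (hAB a ha b (mem_filter.mp hb).1).2
        rw [hi a ha, (mem_filter.mp hb).2, ← e] at this
        simp [ht] at this
      have c2 := card_le_univ (((B.filter fun b => b.1 = j).image Prod.snd) ∪ (A' + J i j))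
      rw [card_union_of_disjoint dj, c1, ZMod.card] at c2
      rw [cA, hJ] at cd
      omega
  have tot : B.card = ∑ j : Fin 3, (B.filter fun b => b.1 = j).card :=
    card_eq_sum_card_fiberwise (f := Prod.fst) (fun _ _ => mem_coe.mpr (mem_univ _))
  have h1 := card_pos.mpr hA
  have h2 := card_pos.mpr hB
  rw [Fin.sum_univ_three] at tot
  have k0 := key 0
  have k1 := key 1
  have k2 := key 2
  have hi3 : i = 0 ∨ i = 1 ∨ i = 2 := by omega
  rcases hi3 with rfl | rfl | rfl
  · rw [if_pos rfl] at k0
    rw [if_neg (by decide)] at k1 k2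
    omega
  · rw [if_pos rfl] at k1
    rw [if_neg (by decide)] at k0 k2
    omega
  · rw [if_pos rfl] at k2
    rw [if_neg (by decide)] at k0 k1
    omega

lemma bic (A B : Finset (Fin 3 × ZMod 11)) (hA : A.Nonempty) (hB : B.Nonempty)
    (hAB : ∀ a ∈ A, ∀ b ∈ B, G.Adj a b) : A.card + B.card ≤ 15 := by
  obtain ⟨a, ha⟩ := hA
  by_cases h : ∀ a' ∈ A, a'.1 = a.1
  · exact one_side A B a.1 ⟨a, ha⟩ hB h hAB
  · push Not at h
    obtain ⟨a', ha', hne⟩ := h
    obtain ⟨b, hb⟩ := hB
    rw [add_comm]
    refine one_side B A b.1 ⟨b, hb⟩ ⟨a, ha⟩ ?_ fun b hb a ha => (hAB a ha b hb).symm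
    intro b' hb'
    have h1 := (hAB a ha b hb).1
    have h2 := (hAB a ha b' hb').1
    have h3 := (hAB a' ha' b hb).1
    have h4 := (hAB a' ha' b' hb').1
    omega

lemma omega_le : omegaB G ≤ 15 := by
  refine max_le (by norm_num) (csSup_le' ?_)
  rintro m ⟨a, b, ha, hb, rfl, ⟨f⟩⟩
  have := bic (univ.image fun i : Fin a => f (Sum.inl i)) (univ.image fun i : Fin b => f (Sum.inr i))
    ⟨f (Sum.inl ⟨0, ha⟩), mem_image_of_mem _ (mem_univ _)⟩
    ⟨f (Sum.inr ⟨0, hb⟩), mem_image_of_mem _ (mem_univ _)⟩ (by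
      intro x hx y hy
      obtain ⟨i, -, rfl⟩ := mem_image.mp hx
      obtain ⟨j, -, rfl⟩ := mem_image.mp hy
      exact f.toHom.map_adj (by simp))
  rw [card_image_of_injective, card_image_of_injective] at this
  · simpa using this
  · intro i j e; simpa using f.injective e
  · intro i j e; simpa using f.injective e

/-- in a proper k-colouring every class of the partition sees every colour -/
lemma all_colours {V : Type} [Fintype V] {H : SimpleGraph V} {k : ℕ}
    {p : Enl V k → Fin (parts (Fintype.card V) k)} (hp : ∀ i, Nat.card {x // p x = i} = k)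
    (c : (cliqueUp H k p).Coloring (Fin k)) (i : Fin (parts (Fintype.card V) k)) (t : Fin k) :
    ∃ x, p x = i ∧ c x = t := by
  classical
  have inj : Function.Injective (fun x : {x // p x = i} => c x.1) := by
    intro x y e
    by_contra hne
    refine c.valid (Or.inr ?_) e
    rw [SimpleGraph.fromRel_adj]
    exact ⟨fun h => hne (Subtype.ext h), Or.inl (x.2.trans y.2.symm)⟩
  have := (Nat.bijective_iff_injective_and_card _).mpr ⟨inj, by rw [hp]; simp⟩
  obtain ⟨x, hx⟩ := this.2 t
  exact ⟨x.1, x.2, hx⟩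

lemma col_adj {V : Type} [Fintype V] {H : SimpleGraph V} {k : ℕ}
    {p : Enl V k → Fin (parts (Fintype.card V) k)}
    (c : (cliqueUp H k p).Coloring (Fin k)) {u v : V} (h : H.Adj u v) :
    c (Sum.inl u) ≠ c (Sum.inl v) :=
  c.valid (Or.inl ⟨by simpa using h.ne, u, v, h, rfl, rfl⟩)

lemma card_fst {α : Type} (m k : ℕ) (e : α ≃ Fin m × Fin k) (i : Fin m) :
    Nat.card {x // (e x).1 = i} = k := by
  have : {x // (e x).1 = i} ≃ Fin k :=
    { toFun := fun x => (e x.1).2
      invFun := fun t => ⟨e.symm (i, t), by simp⟩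
      left_inv := fun x => by
        obtain ⟨x, rfl⟩ := x
        simp
      right_inv := fun t => by simp }
  rw [Nat.card_congr this]; simp

lemma card_enl (V : Type) [Fintype V] (k : ℕ) (hk : 0 < k) :
    Fintype.card (Enl V k) = parts (Fintype.card V) k * k := by
  have : Fintype.card V ≤ k * parts (Fintype.card V) k := by
    have h1 := Nat.div_add_mod (Fintype.card V + k - 1) k
    have h2 := Nat.mod_lt (Fintype.card V + k - 1) hk
    unfold parts
    omega
  simp only [Fintype.card_sum, Fintype.card_fin]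
  rw [mul_comm (parts _ _)]
  omega

lemma cardV : Fintype.card (Fin 3 × ZMod 11) = 33 := by simp

/-- any injection defined on a subtype extends to a bijection -/
lemma extend {α β γ : Type} [Fintype α] [Fintype β] [Finite γ] (h : Fintype.card α = Fintype.card β)
    (f : γ → α) (g : γ → β) (hf : Function.Injective f) (hg : Function.Injective g) :
    ∃ e : α ≃ β, ∀ x, e (f x) = g x := by
  classical
  let e0 := Fintype.equivOfCardEq h
  obtain ⟨σ, hσ⟩ := Equiv.Perm.exists_extending_pair (f := fun x => e0 (f x)) (g := g)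
    (e0.injective.comp hf) hg
  exact ⟨e0.trans σ, fun x => hσ x⟩

lemma small (k : ℕ) (hk : 0 < k) (hk' : k ≤ 10) : ¬ StrongColorable G k := by
  intro h
  have hm : 0 < parts (Fintype.card (Fin 3 × ZMod 11)) k := by
    rw [cardV]; unfold parts
    exact Nat.div_pos (by omega) hk
  let nb : Fin 10 → Fin 3 × ZMod 11 :=
    ![(1, 4), (1, 5), (1, 6), (1, 7), (1, 8), (1, 9), (1, 10), (2, 0), (2, 1), (2, 2)]
  have nb1 : Function.Injective nb := by decide
  have nb2 : ∀ i, G.Adj (0, 0) (nb i) := by decide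
  obtain ⟨e, he⟩ := extend (α := Enl (Fin 3 × ZMod 11) k)
    (β := Fin (parts (Fintype.card (Fin 3 × ZMod 11)) k) × Fin k)
    (by rw [card_enl _ _ hk]; simp) (fun t : Fin k => Sum.inl (nb (Fin.castLE hk' t)))
    (fun t => (⟨0, hm⟩, t))
    (fun s t e => Fin.castLE_injective hk' (nb1 (Sum.inl_injective e)))
    (fun s t e => (Prod.ext_iff.mp e).2)
  have hp := card_fst _ _ e
  obtain ⟨c⟩ := h (fun x => (e x).1) hp
  obtain ⟨x, hx, hc⟩ := all_colours hp c ⟨0, hm⟩ (c (Sum.inl (0, 0)))
  have : x = Sum.inl (nb (Fin.castLE hk' (e x).2)) := by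
    apply e.injective
    rw [he]
    exact Prod.ext hx rfl
  rw [this] at hc
  exact col_adj c (nb2 _) hc.symm

lemma mid (k : ℕ) (hk : 11 ≤ k) (hk' : k ≤ 16) : ¬ StrongColorable G k := by
  classical
  intro h
  have hm : parts (Fintype.card (Fin 3 × ZMod 11)) k = 3 := by
    rw [cardV]; unfold parts
    interval_cases k <;> rfl
  obtain ⟨e, he⟩ := extend (α := Enl (Fin 3 × ZMod 11) k)
    (β := Fin (parts (Fintype.card (Fin 3 × ZMod 11)) k) × Fin k)
    (by rw [card_enl _ _ (by omega)]; simp) (fun v : Fin 3 × ZMod 11 => Sum.inl v)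
    (fun v => (Fin.cast hm.symm v.1, Fin.castLE hk v.2))
    Sum.inl_injective
    (fun s t e => Prod.ext (Fin.cast_injective hm.symm (Prod.ext_iff.mp e).1)
      (Fin.castLE_injective hk (Prod.ext_iff.mp e).2))
  have hp := card_fst _ _ e
  obtain ⟨c⟩ := h (fun x => (e x).1) hp
  obtain ⟨t, ht⟩ : ∃ t : Fin k, ∀ y, c (Sum.inr y) ≠ t := by
    by_contra hc
    push Not at hc
    have := Fintype.card_le_of_surjective (fun y => c (Sum.inr y)) hc
    simp only [Fintype.card_fin] at this
    rw [hm, cardV] at this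
    omega
  have get : ∀ i : Fin 3, ∃ x : ZMod 11, c (Sum.inl (i, x)) = t := by
    intro i
    obtain ⟨x, hx, hc⟩ := all_colours hp c (Fin.cast hm.symm i) t
    rcases x with v | y
    · refine ⟨v.2, ?_⟩
      simp only [he] at hx
      rw [← Fin.cast_injective hm.symm hx]
      exact hc
    · exact absurd hc (ht y)
  obtain ⟨x, hx⟩ := get 0
  obtain ⟨y, hy⟩ := get 1
  obtain ⟨z, hz⟩ := get 2
  rcases no_trans x y z with h | h | h
  · exact col_adj c h (hx.trans hy.symm)
  · exact col_adj c h (hy.trans hz.symm)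
  · exact col_adj c h (hx.trans hz.symm)

lemma big : StrongColorable G 33 := by
  intro p _
  have := (cliqueUp G 33 p).colorable_of_fintype
  rw [card_enl _ _ (by norm_num), cardV] at this
  exact this

lemma strong_ge : 17 ≤ strongChrom G := by
  refine le_csInf ⟨33, by norm_num, big⟩ ?_
  rintro k ⟨hk, h⟩
  by_contra hc
  by_cases h1 : k ≤ 10
  · exact small k hk h1 h
  · exact mid k (by omega) (by omega) h

theorem result : ∃ (V : Type) (_ : Fintype V) (H : SimpleGraph V),
    omegaB H + 2 ≤ strongChrom H :=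
  ⟨Fin 3 × ZMod 11, inferInstance, G, by have := omega_le; have := strong_ge; omega⟩

end Pool.Agent.Results.MP_44775e_co.Counter
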